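import Mathlib

set_option autoImplicit false

namespace Pool.Agent.P.MP_a0085b_an

open Finset RealInnerProductSpace

/-- Special sets: any two elements differ by a divisor of the smaller one. -/
theorem exists_special (K : ℕ) : ∃ S : Finset ℕ, S.card = K ∧ (∀ a ∈ S, 0 < a) ∧
    ∀ a ∈ S, ∀ b ∈ S, a < b → (b - a) ∣ a := by
  induction K with
  | zero => exact ⟨∅, by simp, by simp, by simp⟩
  | succ K ih =>
    obtain ⟨S, hc, hp, hd⟩ := ih
    set P := (S.sup id).factorial with hP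
    have hP0 : 0 < P := Nat.factorial_pos _
    have hdiv : ∀ d, 0 < d → d ≤ S.sup id → d ∣ P := fun d h1 h2 => Nat.dvd_factorial h1 h2
    have hle : ∀ a ∈ S, a ≤ S.sup id := fun a ha => Finset.le_sup (f := id) ha
    refine ⟨insert P (S.image (P + ·)), ?_, ?_, ?_⟩
    · rw [Finset.card_insert_of_notMem, Finset.card_image_of_injective _ (add_right_injective P), hc]
      simp only [Finset.mem_image, not_exists, not_and]
      intro a ha h
      have := hp a ha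
      omega
    · intro a ha
      simp only [Finset.mem_insert, Finset.mem_image] at ha
      rcases ha with rfl | ⟨a, _, rfl⟩ <;> omega
    · intro a ha b hb hab
      simp only [Finset.mem_insert, Finset.mem_image] at ha hb
      rcases ha with rfl | ⟨a, ha, rfl⟩
      · rcases hb with rfl | ⟨b, hb, rfl⟩
        · omega
        · rw [Nat.add_sub_cancel_left]
          exact hdiv b (hp b hb) (hle b hb)
      · rcases hb with rfl | ⟨b, hb, rfl⟩
        · omega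
        · have hab' : a < b := by omega
          have : P + b - (P + a) = b - a := by omega
          rw [this]
          exact Nat.dvd_add (hdiv _ (by omega) (by have := hle b hb; omega)) (hd a ha b hb hab')

variable {E : Type*} [NormedAddCommGroup E] [InnerProductSpace ℝ E]

/-- Among many vectors of norm at most one with a common positive component, two correlate. -/
theorem exists_pair (S : Finset ℕ) (x : ℕ → E) (e : E) (α : ℝ) (hα : 0 < α) (he : ‖e‖ ≤ 1)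
    (hx : ∀ a ∈ S, ‖x a‖ ≤ 1) (hxe : ∀ a ∈ S, ⟪x a, e⟫ = α) (hK : 2 / α ^ 2 < S.card) :
    ∃ a ∈ S, ∃ b ∈ S, a < b ∧ α ^ 2 / 2 ≤ ⟪x a, x b⟫ := by
  by_contra hcon
  push Not at hcon
  have hoff : ∀ a ∈ S, ∀ b ∈ S, ⟪x a, x b⟫ ≤ α ^ 2 / 2 + if a = b then 1 else 0 := by
    intro a ha b hb
    rcases lt_trichotomy a b with h | h | h
    · rw [if_neg h.ne]; linarith [hcon a ha b hb h]
    · subst h
      rw [if_pos rfl, real_inner_self_eq_norm_sq]
      have := hx a ha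
      have h0 := norm_nonneg (x a)
      nlinarith [sq_nonneg α]
    · rw [if_neg h.ne', real_inner_comm]; linarith [hcon b hb a ha h]
  have h1 : ‖∑ a ∈ S, x a‖ ^ 2 ≤ (S.card : ℝ) ^ 2 * (α ^ 2 / 2) + S.card := by
    rw [← real_inner_self_eq_norm_sq, sum_inner]
    calc ∑ a ∈ S, ⟪x a, ∑ b ∈ S, x b⟫ ≤ ∑ a ∈ S, ((S.card : ℝ) * (α ^ 2 / 2) + 1) := by
          refine Finset.sum_le_sum fun a ha => ?_
          rw [inner_sum]
          calc ∑ b ∈ S, ⟪x a, x b⟫ ≤ ∑ b ∈ S, (α ^ 2 / 2 + if a = b then 1 else 0) :=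
                Finset.sum_le_sum fun b hb => hoff a ha b hb
            _ = _ := by simp [Finset.sum_add_distrib, ha]
      _ = _ := by simp; ring
  have h2 : (S.card : ℝ) * α ≤ ‖∑ a ∈ S, x a‖ := by
    have : ⟪∑ a ∈ S, x a, e⟫ = S.card * α := by
      rw [sum_inner, Finset.sum_congr rfl hxe]; simp
    rw [← this]
    calc _ ≤ ‖∑ a ∈ S, x a‖ * ‖e‖ := real_inner_le_norm _ _
      _ ≤ _ := mul_le_of_le_one_right (norm_nonneg _) he
  have hα2 : 0 < α ^ 2 := by positivity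
  have hK' : 2 < S.card * α ^ 2 := by rwa [div_lt_iff₀ hα2] at hK
  have hc : (0 : ℝ) < S.card := lt_trans (by positivity) hK
  have h3 : ((S.card : ℝ) * α) ^ 2 ≤ ‖∑ a ∈ S, x a‖ ^ 2 := by gcongr
  nlinarith

/-- Average of the vectors `v (a * k ^ 2)` over a finite family of `k`. -/
noncomputable def avg (v : ℕ → E) {ι : Type} [Fintype ι] (s : ι → ℕ) (a : ℕ) : E :=
  ((Fintype.card ι : ℝ)⁻¹) • ∑ i, v (a * s i ^ 2)

theorem inner_avg (v : ℕ → E) {ι : Type} [Fintype ι] (s : ι → ℕ) (a b : ℕ) :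
    ⟪avg v s a, avg v s b⟫ = (Fintype.card ι : ℝ)⁻¹ * ((Fintype.card ι : ℝ)⁻¹ *
      ∑ i, ∑ j, ⟪v (a * s i ^ 2), v (b * s j ^ 2)⟫) := by
  simp only [avg, inner_smul_left, inner_smul_right, sum_inner, inner_sum, conj_trivial]
  rw [← Finset.mul_sum, Finset.sum_comm]

theorem inner_avg_mul (v : ℕ → E)
    (hv : ∀ c a b, 0 < c → 0 < a → 0 < b → ⟪v (c * a), v (c * b)⟫ = ⟪v a, v b⟫)
    {ι : Type} [Fintype ι] (s : ι → ℕ) (hs : ∀ i, 0 < s i) (c a b : ℕ) (hc : 0 < c) (ha : 0 < a)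
    (hb : 0 < b) : ⟪avg v s (c * a), avg v s (c * b)⟫ = ⟪avg v s a, avg v s b⟫ := by
  rw [inner_avg, inner_avg]
  congr 2
  refine Finset.sum_congr rfl fun i _ => Finset.sum_congr rfl fun j _ => ?_
  rw [mul_assoc, mul_assoc]
  have := hs i
  have := hs j
  exact hv c _ _ hc (by positivity) (by positivity)

theorem norm_avg_le (v : ℕ → E) (hn : ∀ a, 0 < a → ‖v a‖ ≤ 1) {ι : Type} [Fintype ι] [Nonempty ι]
    (s : ι → ℕ) (hs : ∀ i, 0 < s i) (a : ℕ) (ha : 0 < a) : ‖avg v s a‖ ≤ 1 := by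
  have hc : (0 : ℝ) < Fintype.card ι := by exact_mod_cast Fintype.card_pos
  rw [avg, norm_smul, norm_inv, Real.norm_of_nonneg hc.le, inv_mul_le_iff₀ hc, mul_one]
  calc _ ≤ ∑ i, ‖v (a * s i ^ 2)‖ := norm_sum_le _ _
    _ ≤ ∑ _i : ι, (1 : ℝ) := Finset.sum_le_sum fun i _ => hn _ (by have := hs i; positivity)
    _ = _ := by simp

theorem inner_avg_const (v : ℕ → E) (e : E) (α : ℝ) (hve : ∀ a, 0 < a → ⟪v a, e⟫ = α)
    {ι : Type} [Fintype ι] [Nonempty ι] (s : ι → ℕ) (hs : ∀ i, 0 < s i) (a : ℕ) (ha : 0 < a) :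
    ⟪avg v s a, e⟫ = α := by
  have hc : (0 : ℝ) < Fintype.card ι := by exact_mod_cast Fintype.card_pos
  rw [avg, inner_smul_left, sum_inner,
    Finset.sum_congr rfl fun i _ => hve _ (by have := hs i; positivity)]
  simp only [map_inv₀, conj_trivial, Finset.sum_const, Finset.card_univ, nsmul_eq_mul]
  field_simp

/-- Some finite average is almost invariant under all squares. -/
theorem exists_almost_invariant (v : ℕ → E)
    (hv : ∀ c a b, 0 < c → 0 < a → 0 < b → ⟪v (c * a), v (c * b)⟫ = ⟪v a, v b⟫)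
    (η : ℝ) (hη : 0 < η) :
    ∃ (ι : Type) (_ : Fintype ι) (_ : Nonempty ι) (s : ι → ℕ), (∀ i, 0 < s i) ∧
      ∀ j, 0 < j → ‖avg v s (j ^ 2) - avg v s 1‖ ≤ η := by
  set D : Set ℝ := {x | ∃ (ι : Type) (_ : Fintype ι) (_ : Nonempty ι) (s : ι → ℕ),
    (∀ i, 0 < s i) ∧ x = ‖avg v s 1‖ ^ 2} with hD
  have hne : D.Nonempty := ⟨_, Unit, inferInstance, inferInstance, fun _ => 1, by simp, rfl⟩
  have hbd : BddBelow D := ⟨0, by rintro x ⟨ι, _, _, s, _, rfl⟩; positivity⟩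
  obtain ⟨x, ⟨ι, _, _, s, hs, rfl⟩, hlt⟩ :=
    exists_lt_of_csInf_lt hne (show sInf D < sInf D + η ^ 2 / 4 by
      have : 0 < η ^ 2 / 4 := by positivity
      linarith)
  refine ⟨ι, inferInstance, inferInstance, s, hs, fun j hj => ?_⟩
  have hc : (0 : ℝ) < Fintype.card ι := by exact_mod_cast Fintype.card_pos
  have hmid : avg v (Sum.elim (fun i => j * s i) s) 1 =
      (2 : ℝ)⁻¹ • (avg v s (j ^ 2) + avg v s 1) := by
    simp only [avg, Fintype.sum_sum_type, Sum.elim_inl, Sum.elim_inr, Fintype.card_sum,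
      Nat.cast_add, one_mul, mul_pow, ← smul_add, smul_smul]
    congr 1
    field_simp
    ring
  have hmem : ‖avg v (Sum.elim (fun i => j * s i) s) 1‖ ^ 2 ∈ D :=
    ⟨ι ⊕ ι, inferInstance, inferInstance, _, by
      rintro (i | i)
      · exact Nat.mul_pos hj (hs i)
      · exact hs i, rfl⟩
  have h1 := csInf_le hbd hmem
  rw [hmid, norm_smul, mul_pow] at h1
  have hn : ‖avg v s (j ^ 2)‖ ^ 2 = ‖avg v s 1‖ ^ 2 := by
    rw [← real_inner_self_eq_norm_sq, ← real_inner_self_eq_norm_sq]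
    simpa using inner_avg_mul v hv s hs (j ^ 2) 1 1 (by positivity) one_pos one_pos
  have hpar := parallelogram_law_with_norm ℝ (avg v s (j ^ 2)) (avg v s 1)
  have h2 : ‖(2 : ℝ)⁻¹‖ ^ 2 = 1 / 4 := by norm_num
  rw [h2] at h1
  refine le_of_sq_le_sq ?_ hη.le
  nlinarith

theorem exists_le_of_avg {ι : Type} [Fintype ι] [Nonempty ι] (f : ι → ι → ℝ) (c : ℝ)
    (h : c ≤ (Fintype.card ι : ℝ)⁻¹ * ((Fintype.card ι : ℝ)⁻¹ * ∑ i, ∑ j, f i j)) :
    ∃ i j, c ≤ f i j := by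
  by_contra hcon
  push Not at hcon
  have hc : (0 : ℝ) < Fintype.card ι := by exact_mod_cast Fintype.card_pos
  have : ∑ i, ∑ j, f i j < ∑ _i : ι, ∑ _j : ι, c :=
    Finset.sum_lt_sum_of_nonempty Finset.univ_nonempty fun i _ =>
      Finset.sum_lt_sum_of_nonempty Finset.univ_nonempty fun j _ => hcon i j
  simp only [Finset.sum_const, Finset.card_univ, nsmul_eq_mul] at this
  rw [le_inv_mul_iff₀ hc, le_inv_mul_iff₀ hc] at h
  linarith

theorem key (v : ℕ → E)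
    (hv : ∀ c a b, 0 < c → 0 < a → 0 < b → ⟪v (c * a), v (c * b)⟫ = ⟪v a, v b⟫)
    (hn : ∀ a, 0 < a → ‖v a‖ ≤ 1) (e : E) (he : ‖e‖ ≤ 1) (α : ℝ) (hα : 0 < α)
    (hve : ∀ a, 0 < a → ⟪v a, e⟫ = α) :
    ∃ D W : ℕ, 0 < D ∧ 0 < W ∧ ∀ t u : ℕ, 0 < u → ∃ a d q n : ℕ, a ≤ D ∧ 0 < d ∧ d ≤ D ∧
      0 < q ∧ q ≤ D ∧ 0 < n ∧ d * n = W * t + a ∧
      α ^ 2 / 4 ≤ ⟪v (n ^ 2 + n), v ((q * u) ^ 2)⟫ := by
  obtain ⟨K, hK⟩ := exists_nat_gt (2 / α ^ 2)
  obtain ⟨S, hSc, hSp, hSd⟩ := exists_special K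
  obtain ⟨ι, _, _, s, hs, hinv⟩ := exists_almost_invariant v hv (α ^ 2 / 8) (by positivity)
  set L := ∏ i, s i with hL
  have hL0 : 0 < L := Finset.prod_pos fun i _ => hs i
  have hdv : ∀ i, s i ∣ L := fun i => Finset.dvd_prod_of_mem s (Finset.mem_univ i)
  have hle : ∀ a ∈ S, a ≤ S.sup id := fun a ha => Finset.le_sup (f := id) ha
  refine ⟨S.sup id + L * L, (S.sup id).factorial, by positivity, Nat.factorial_pos _,
    fun t u hu => ?_⟩
  set W := (S.sup id).factorial with hW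
  obtain ⟨a, ha, b, hb, hab, hcor⟩ := exists_pair S (fun a => avg v s (W * t + a)) e α hα he
    (fun a ha => norm_avg_le v hn s hs _ (by have := hSp a ha; omega))
    (fun a ha => inner_avg_const v e α hve s hs _ (by have := hSp a ha; omega)) (by rw [hSc]; exact hK)
  have hd1 : (b - a) ∣ W * t + a :=
    Nat.dvd_add (Dvd.dvd.mul_right
      (Nat.dvd_factorial (by omega) (by have := hle b hb; omega)) t) (hSd a ha b hb hab)
  obtain ⟨n, hn1⟩ := hd1
  have ha0 := hSp a ha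
  have hn0 : 0 < n := by
    rcases Nat.eq_zero_or_pos n with h | h
    · subst h; omega
    · exact h
  have hn2 : W * t + b = (b - a) * (n + 1) := by rw [mul_add, ← hn1]; omega
  simp only [hn1, hn2] at hcor
  rw [inner_avg_mul v hv s hs _ _ _ (by omega) hn0 (by omega),
    ← inner_avg_mul v hv s hs n _ _ hn0 hn0 (by omega)] at hcor
  have hcor2 : α ^ 2 / 4 ≤ ⟪avg v s (n * (n + 1)), avg v s ((L * u) ^ 2)⟫ := by
    have e1 := hinv n hn0
    have e2 := hinv (L * u) (by positivity)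
    have e3 : ‖avg v s (n ^ 2) - avg v s ((L * u) ^ 2)‖ ≤ α ^ 2 / 4 := by
      calc _ = ‖(avg v s (n ^ 2) - avg v s 1) - (avg v s ((L * u) ^ 2) - avg v s 1)‖ := by
            congr 1; abel
        _ ≤ _ := norm_sub_le _ _
        _ ≤ _ := by linarith
    have e4 := norm_avg_le v hn s hs (n * (n + 1)) (by positivity)
    have e5 := real_inner_le_norm (avg v s (n * (n + 1))) (avg v s (n ^ 2) - avg v s ((L * u) ^ 2))
    rw [inner_sub_right] at e5
    rw [real_inner_comm, ← pow_two] at hcor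
    have e6 : ‖avg v s (n * (n + 1))‖ * ‖avg v s (n ^ 2) - avg v s ((L * u) ^ 2)‖ ≤
        1 * (α ^ 2 / 4) := by gcongr
    linarith
  rw [inner_avg] at hcor2
  obtain ⟨i, j, hij⟩ := exists_le_of_avg _ _ hcor2
  obtain ⟨r, hr⟩ := hdv i
  have hr0 : 0 < r := by
    rcases Nat.eq_zero_or_pos r with h | h
    · subst h; omega
    · exact h
  have hsi := hs i
  have hsj := hs j
  refine ⟨a, b - a, r * s j, n, by have := hle a ha; omega, by omega,
    by have := hle b hb; omega, by positivity, ?_, hn0, hn1.symm, ?_⟩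
  · have h1 : r ≤ L := Nat.le_of_dvd hL0 ⟨s i, by rw [hr]; ring⟩
    have h2 : s j ≤ L := Nat.le_of_dvd hL0 (hdv j)
    have := Nat.mul_le_mul h1 h2
    omega
  · have e1 : n * (n + 1) * s i ^ 2 = s i ^ 2 * (n ^ 2 + n) := by ring
    have e2 : (L * u) ^ 2 * s j ^ 2 = s i ^ 2 * (r * s j * u) ^ 2 := by rw [hr]; ring
    rw [e1, e2, hv _ _ _ (by positivity) (by positivity) (by positivity)] at hij
    exact hij

/-- Counting step. -/
theorem count (φ : ℕ → ℕ → ℝ) (hφ : ∀ n m, 0 ≤ φ n m) (c : ℝ) (hc : 0 < c) (D W : ℕ) (hD : 0 < D)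
    (hW : 0 < W) (h : ∀ t u : ℕ, 0 < u → ∃ a d q n : ℕ, a ≤ D ∧ 0 < d ∧ d ≤ D ∧
      0 < q ∧ q ≤ D ∧ 0 < n ∧ d * n = W * t + a ∧ c ≤ φ n (q * u)) :
    ∃ κ : ℝ, 0 < κ ∧ ∀ᶠ N : ℕ in Filter.atTop,
      κ ≤ 1 / (N : ℝ) ^ 2 * ∑ n ∈ Icc 1 N, ∑ m ∈ Icc 1 N, φ n m := by
  classical
  choose! a d q n hall using h
  refine ⟨c / ((D + 1) ^ 3 * (2 * (W + D)) ^ 2), by positivity, ?_⟩
  filter_upwards [Filter.eventually_ge_atTop (W + D)] with N hN
  set M := N / (W + D) with hM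
  have hM1 : 1 ≤ M := by rw [hM, Nat.le_div_iff_mul_le (by omega)]; omega
  have hM2 : M * (W + D) ≤ N := Nat.div_mul_le_self _ _
  have hM3 : N ≤ 2 * (W + D) * M := by
    have := Nat.lt_div_mul_add (a := N) (show 0 < W + D by omega)
    rw [← hM] at this
    nlinarith
  set G := (Icc 1 N ×ˢ Icc 1 N).filter fun p : ℕ × ℕ => c ≤ φ p.1 p.2 with hG
  have hcard : M ^ 2 ≤ G.card * (D + 1) ^ 3 := by
    have := Finset.card_le_card_of_injOn (s := Icc 1 M ×ˢ Icc 1 M)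
      (t := G ×ˢ (range (D + 1) ×ˢ (range (D + 1) ×ˢ range (D + 1))))
      (fun p => ((n p.1 p.2, q p.1 p.2 * p.2), a p.1 p.2, d p.1 p.2, q p.1 p.2)) ?_ ?_
    · simp only [Finset.card_product, Nat.card_Icc, Finset.card_range] at this
      calc M ^ 2 = (M + 1 - 1) * (M + 1 - 1) := by simp [pow_two]
        _ ≤ _ := this
        _ = _ := by ring
    · rintro ⟨t, u⟩ hp
      simp only [Finset.coe_product, Finset.coe_Icc, Set.mem_prod, Set.mem_Icc] at hp
      obtain ⟨h1, h2, h3, h4, h5, h6, h7, h8⟩ := hall t u (by omega)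
      simp only [hG, Finset.coe_product, Finset.coe_filter, Finset.mem_product, Finset.mem_Icc,
        Set.mem_prod, Set.mem_ofPred_eq, Finset.coe_range, Set.mem_Iio]
      refine ⟨⟨⟨⟨h6, ?_⟩, Nat.mul_pos h4 (by omega), ?_⟩, h8⟩, by omega, by omega, by omega⟩
      · have e1 : n t u ≤ d t u * n t u := Nat.le_mul_of_pos_left _ h2
        have e2 : W * t ≤ W * M := Nat.mul_le_mul_left _ hp.1.2
        nlinarith
      · have e1 : q t u * u ≤ D * M := Nat.mul_le_mul h5 hp.2.2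
        nlinarith
    · rintro ⟨t, u⟩ hp ⟨t', u'⟩ hp' heq
      simp only [Finset.coe_product, Finset.coe_Icc, Set.mem_prod, Set.mem_Icc] at hp hp'
      simp only [Prod.mk.injEq] at heq
      obtain ⟨⟨e1, e2⟩, e3, e4, e5⟩ := heq
      obtain ⟨_, _, _, h4, _, _, h7, _⟩ := hall t u (by omega)
      obtain ⟨_, _, _, _, _, _, h7', _⟩ := hall t' u' (by omega)
      rw [← e5] at e2
      rw [← e1, ← e3, ← e4, h7] at h7'
      have f1 : u = u' := Nat.eq_of_mul_eq_mul_left h4 e2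
      have f2 : t = t' := Nat.eq_of_mul_eq_mul_left hW (by omega)
      rw [f1, f2]
  have hsum : c * G.card ≤ ∑ n ∈ Icc 1 N, ∑ m ∈ Icc 1 N, φ n m := by
    rw [← Finset.sum_product']
    calc c * G.card = ∑ _p ∈ G, c := by simp [mul_comm]
      _ ≤ ∑ p ∈ G, φ p.1 p.2 := Finset.sum_le_sum fun p hp => (Finset.mem_filter.1 hp).2
      _ ≤ _ := Finset.sum_le_sum_of_subset_of_nonneg (Finset.filter_subset _ _)
          fun p _ _ => hφ _ _
  have hN0 : (0 : ℝ) < N := by exact_mod_cast (show 0 < N by omega)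
  have hcardR : (M : ℝ) ^ 2 ≤ G.card * (D + 1) ^ 3 := by exact_mod_cast hcard
  have hM3R : (N : ℝ) ≤ 2 * (W + D) * M := by exact_mod_cast hM3
  have hWD : (0 : ℝ) < W + D := by positivity
  rw [one_div, le_inv_mul_iff₀ (by positivity), ← mul_div_assoc, div_le_iff₀ (by positivity)]
  have e1 : (N : ℝ) ^ 2 ≤ (2 * (W + D) * M) ^ 2 := by gcongr
  calc (N : ℝ) ^ 2 * c ≤ (2 * (W + D) * M) ^ 2 * c := by gcongr
    _ = (2 * (W + D)) ^ 2 * c * (M : ℝ) ^ 2 := by ring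
    _ ≤ (2 * (W + D)) ^ 2 * c * (G.card * (D + 1) ^ 3) := by gcongr
    _ = c * G.card * ((D + 1) ^ 3 * (2 * (W + D)) ^ 2) := by ring
    _ ≤ _ := by gcongr

end Pool.Agent.P.MP_a0085b_an
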